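import Mathlib
import Pool.Agent.H15.HX.Defs

set_option autoImplicit false

namespace Pool.Agent.H15.HX

open Finset Pool.Agent.H9.Bry

/-- `res Z g = 0` pointwise -/
theorem res_eq_zero_iff' {α F : Type*} [Field F] [DecidableEq α] (g : α → F) (Z : Finset α) :
    res Z g = 0 ↔ ∀ y ∈ Z, g y = 0 := by
  constructor
  · intro h y hy
    have := congrFun h y
    simpa [res, hy] using this
  · intro h
    ext y
    by_cases hy : y ∈ Z
    · simp [res, hy, h y hy]
    · simp [res, hy]

/-- Row SPB. -/
theorem zero_step {α F : Type*} [Field F] [DecidableEq F] [Fintype α] [DecidableEq α]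
    (𝓕 : Finset (α → F)) (Q Y : Finset α) (hY : Y ⊆ Q) (d : ℕ)
    (hw : ∀ g ∈ 𝓕, d ≤ (Q.filter (fun y => g y ≠ 0)).card) :
    (∀ x ∈ Q \ Y, (𝓕.filter (fun g => res (insert x Y) g = 0)).card ≤
      (𝓕.filter (fun g => res Y g = 0)).card) ∧
    d * (𝓕.filter (fun g => res Y g = 0)).card ≤
      ∑ x ∈ Q \ Y, ((𝓕.filter (fun g => res Y g = 0)).card -
        (𝓕.filter (fun g => res (insert x Y) g = 0)).card) := by
  have hstep : ∀ x, 𝓕.filter (fun g => res (insert x Y) g = 0) =
      (𝓕.filter (fun g => res Y g = 0)).filter (fun g => g x = 0) := by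
    intro x
    ext g
    simp only [mem_filter, res_eq_zero_iff', mem_insert, forall_eq_or_imp]
    tauto
  have hcard : ∀ x, (𝓕.filter (fun g => res Y g = 0)).card -
      (𝓕.filter (fun g => res (insert x Y) g = 0)).card =
      ((𝓕.filter (fun g => res Y g = 0)).filter (fun g => ¬ g x = 0)).card := by
    intro x
    rw [hstep]
    have h1 := card_filter_add_card_filter_not (s := 𝓕.filter (fun g => res Y g = 0))
      (fun g : α → F => g x = 0)
    omega
  refine ⟨fun x _ => ?_, ?_⟩
  · rw [hstep]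
    exact card_le_card (filter_subset _ _)
  · have h2 : ∑ x ∈ Q \ Y, ((𝓕.filter (fun g => res Y g = 0)).card -
        (𝓕.filter (fun g => res (insert x Y) g = 0)).card) =
        ∑ g ∈ 𝓕.filter (fun g => res Y g = 0), ((Q \ Y).filter (fun x => ¬ g x = 0)).card := by
      rw [sum_congr rfl (fun x _ => hcard x)]
      simp only [card_filter]
      rw [sum_comm]
    rw [h2, mul_comm, ← smul_eq_mul]
    refine card_nsmul_le_sum _ _ _ ?_
    intro g hg
    rw [mem_filter, res_eq_zero_iff'] at hg
    refine (hw g hg.1).trans (card_le_card ?_)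
    intro x hx
    rw [mem_filter] at hx ⊢
    exact ⟨mem_sdiff.2 ⟨hx.1, fun h => hx.2 (hg.2 x h)⟩, hx.2⟩

end Pool.Agent.H15.HX
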