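import Mathlib
import Pool.Agent.H15.HX.Defs
import Pool.Agent.H17.HX.SPB

set_option autoImplicit false

namespace Pool.Agent.H15.HX

open Finset Pool.Agent.H9.Bry

/-- Row SPA. -/
theorem split_step {α F : Type*} [Field F] [DecidableEq F] [Fintype α] [DecidableEq α]
    (𝓕 : Finset (α → F)) (Q Y : Finset α) (hY : Y ⊆ Q) (d : ℕ)
    (hsplit : ∀ h ∈ 𝓕.image (res Y), h ≠ 0 → 2 ≤ (𝓕.filter (fun g => res Y g = h)).card →
      d * (𝓕.filter (fun g => res Y g = h)).card ≤
        2 * ∑ x ∈ Q, (((𝓕.filter (fun g => res Y g = h)).image (fun g => g x)).card - 1)) :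
    (∀ x ∈ Q \ Y, ((𝓕.image (res Y)).erase 0).card ≤
      ((𝓕.image (res (insert x Y))).erase 0).card) ∧
    d * (𝓕.card - (𝓕.filter (fun g => res Y g = 0)).card - ((𝓕.image (res Y)).erase 0).card) ≤
      2 * ∑ x ∈ Q \ Y, (((𝓕.image (res (insert x Y))).erase 0).card -
        ((𝓕.image (res Y)).erase 0).card) := by
  obtain ⟨H, hH⟩ : ∃ H, H = (𝓕.image (res Y)).erase 0 := ⟨_, rfl⟩
  obtain ⟨K, hK⟩ : ∃ K : (α → F) → Finset (α → F),
    ∀ h, K h = 𝓕.filter (fun g => res Y g = h) := ⟨_, fun _ => rfl⟩
  have hres : ∀ (Z : Finset α) (g : α → F) (y : α), res Z g y = if y ∈ Z then g y else 0 :=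
    fun _ _ _ => rfl
  have memH : ∀ h ∈ H, h ≠ 0 ∧ ∃ g ∈ 𝓕, res Y g = h := by
    intro h hh
    rw [hH, mem_erase, mem_image] at hh
    exact hh
  have memK : ∀ h g, g ∈ K h ↔ g ∈ 𝓕 ∧ res Y g = h := by
    intro h g
    rw [hK, mem_filter]
  -- the main counting
  have hmain : ∀ x, x ∉ Y → ∑ h ∈ H, ((K h).image (fun g => g x)).card ≤
      ((𝓕.image (res (insert x Y))).erase 0).card := by
    intro x hx
    rw [← card_sigma]
    apply card_le_card_of_injOn (fun p : (_ : α → F) × F => Function.update p.1 x p.2)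
    · rintro ⟨h, t⟩ hp
      rw [mem_coe, mem_sigma, mem_image] at hp
      obtain ⟨hh, g, hg, rfl⟩ := hp
      obtain ⟨hg1, hg2⟩ := (memK h g).1 hg
      have he : Function.update h x (g x) = res (insert x Y) g := by
        ext y
        by_cases hy : y = x
        · subst hy
          simp [hres]
        · rw [Function.update_of_ne hy, ← hg2, hres, hres]
          simp [mem_insert, hy]
      rw [mem_coe, mem_erase]
      refine ⟨?_, ?_⟩
      · show Function.update h x (g x) ≠ 0
        rw [he]
        intro h0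
        apply (memH h hh).1
        rw [← hg2, res_eq_zero_iff']
        intro y hy
        exact (res_eq_zero_iff' g _).1 h0 y (mem_insert_of_mem hy)
      · show Function.update h x (g x) ∈ _
        rw [he]
        exact mem_image_of_mem _ hg1
    · rintro ⟨h, t⟩ hp ⟨h', t'⟩ hp' heq
      rw [mem_coe, mem_sigma] at hp hp'
      have h0 : ∀ k ∈ H, k x = 0 := by
        intro k hk
        obtain ⟨_, g, _, hg⟩ := memH k hk
        rw [← hg, hres, if_neg hx]
      have ht : t = t' := by
        have := congrFun heq x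
        simpa using this
      have hh : h = h' := by
        ext y
        by_cases hy : y = x
        · subst hy
          rw [h0 h hp.1, h0 h' hp'.1]
        · have := congrFun heq y
          simpa [Function.update_of_ne hy] using this
      subst ht; subst hh; rfl
  have hv1 : ∀ h ∈ H, ∀ x, 1 ≤ ((K h).image (fun g => g x)).card := by
    intro h hh x
    obtain ⟨_, g, hg1, hg2⟩ := memH h hh
    exact card_pos.2 ⟨g x, mem_image_of_mem _ ((memK h g).2 ⟨hg1, hg2⟩)⟩
  have hsum1 : ∀ x, ∑ h ∈ H, (((K h).image (fun g => g x)).card - 1) + H.card =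
      ∑ h ∈ H, ((K h).image (fun g => g x)).card := by
    intro x
    rw [card_eq_sum_ones, ← sum_add_distrib]
    apply sum_congr rfl
    intro h hh
    have := hv1 h hh x
    omega
  rw [← hH]
  refine ⟨?_, ?_⟩
  · intro x hx
    have h1 := hmain x (mem_sdiff.1 hx).2
    have h2 := hsum1 x
    omega
  · have hb : ∀ x ∈ Q \ Y, ∑ h ∈ H, (((K h).image (fun g => g x)).card - 1) ≤
        ((𝓕.image (res (insert x Y))).erase 0).card - H.card := by
      intro x hx
      have h1 := hmain x (mem_sdiff.1 hx).2
      have h2 := hsum1 x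
      omega
    have hzero : ∀ h ∈ H, ∀ x ∈ Y, ((K h).image (fun g => g x)).card - 1 = 0 := by
      intro h hh x hx
      have h1 : (K h).image (fun g => g x) ⊆ {h x} := by
        intro t ht
        obtain ⟨g, hg, rfl⟩ := mem_image.1 ht
        obtain ⟨_, hg2⟩ := (memK h g).1 hg
        rw [mem_singleton, ← hg2, hres, if_pos hx]
      have h2 := card_le_card h1
      rw [card_singleton] at h2
      omega
    have hsw : ∑ h ∈ H, ∑ x ∈ Q, (((K h).image (fun g => g x)).card - 1) ≤
        ∑ x ∈ Q \ Y, (((𝓕.image (res (insert x Y))).erase 0).card - H.card) := by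
      calc ∑ h ∈ H, ∑ x ∈ Q, (((K h).image (fun g => g x)).card - 1)
          = ∑ h ∈ H, ∑ x ∈ Q \ Y, (((K h).image (fun g => g x)).card - 1) := by
            apply sum_congr rfl
            intro h hh
            symm
            apply sum_subset sdiff_subset
            intro x hx hx2
            apply hzero h hh x
            by_contra hc
            exact hx2 (mem_sdiff.2 ⟨hx, hc⟩)
        _ = ∑ x ∈ Q \ Y, ∑ h ∈ H, (((K h).image (fun g => g x)).card - 1) := sum_comm
        _ ≤ _ := sum_le_sum hb
    have hcard : 𝓕.card ≤ (K 0).card + ∑ h ∈ H, (K h).card := by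
      have h1 := card_filter_add_card_filter_not (s := 𝓕) (fun g : α → F => res Y g = 0)
      have h2 : (𝓕.filter (fun g => ¬ res Y g = 0)).card ≤ ∑ h ∈ H, (K h).card := by
        rw [card_eq_sum_card_fiberwise (f := fun g => res Y g) (t := H)]
        · apply sum_le_sum
          intro h _
          apply card_le_card
          intro g hg
          rw [mem_filter, mem_filter] at hg
          exact (memK h g).2 ⟨hg.1.1, hg.2⟩
        · intro g hg
          rw [mem_coe, mem_filter] at hg
          rw [mem_coe, hH, mem_erase]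
          exact ⟨hg.2, mem_image_of_mem _ hg.1⟩
      rw [hK]
      omega
    have hsp : ∀ h ∈ H, d * ((K h).card - 1) ≤
        2 * ∑ x ∈ Q, (((K h).image (fun g => g x)).card - 1) := by
      intro h hh
      by_cases h2 : 2 ≤ (K h).card
      · obtain ⟨h0, g, hg1, hg2⟩ := memH h hh
        have h3 := hsplit h (mem_image.2 ⟨g, hg1, hg2⟩) h0 (by rw [← hK]; exact h2)
        rw [← hK] at h3
        exact (Nat.mul_le_mul_left d (Nat.sub_le _ _)).trans h3
      · have : (K h).card - 1 = 0 := by omega
        rw [this, mul_zero]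
        exact Nat.zero_le _
    have hle : 𝓕.card - (K 0).card - H.card ≤ ∑ h ∈ H, ((K h).card - 1) := by
      have h1 : ∑ h ∈ H, (K h).card ≤ ∑ h ∈ H, ((K h).card - 1) + H.card := by
        rw [card_eq_sum_ones, ← sum_add_distrib]
        apply sum_le_sum
        intro h _
        omega
      omega
    rw [← hK 0]
    calc d * (𝓕.card - (K 0).card - H.card) ≤ d * ∑ h ∈ H, ((K h).card - 1) :=
          Nat.mul_le_mul_left d hle
      _ = ∑ h ∈ H, d * ((K h).card - 1) := mul_sum _ _ _
      _ ≤ ∑ h ∈ H, 2 * ∑ x ∈ Q, (((K h).image (fun g => g x)).card - 1) := sum_le_sum hsp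
      _ = 2 * ∑ h ∈ H, ∑ x ∈ Q, (((K h).image (fun g => g x)).card - 1) := (mul_sum _ _ _).symm
      _ ≤ _ := Nat.mul_le_mul_left 2 hsw

end Pool.Agent.H15.HX
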